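import Mathlib
import Pool.Agent.Run7.h402.PG.G13
import Pool.Agent.Run7.h594.PG.REP
import Pool.Agent.Run7.h713.PG.EQ
import Pool.Agent.Run7.h53.PG.MOA
import Pool.Agent.Run7.h53.PG.MOB
import Pool.Agent.Run7.h569.PG.MO
import Pool.Agent.Run7.h586.PG.ML
import Pool.Agent.Run7.h586.PG.PE
import Pool.Agent.Run7.h889.PG.LF
import Pool.Agent.Run7.h774.PG.NU
import Pool.Agent.Run7.h774.PG.INV
import Pool.Agent.Run7.h774.PG.MI
import Pool.Agent.Run7.h774.PG.SA
import Pool.Agent.Run7.h834.PG.SB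
import Pool.Agent.Run7.h834.PG.SC
import Pool.Agent.Run7.h305.PG.LC
import Pool.Agent.Helper256.KM.Mertens

/-!
# Problem `MP_51e72e_nt`: the Bateman-Horn asymptotic formula for almost all ADMISSIBLE systems of `k ≤ B log log X` polynomials

For all `A`, `B`, `C`, `D` there is `E₀` such that for all `E ≥ E₀` and all large `X`: let `k ≤ B log log X`, let `f_1, …, f_k` be
ANY integer polynomials of degrees `1 ≤ d_i ≤ D` with coprime non-constant coefficients and `0 ≤ f_i(n) ≤ X ^ d_i (log X) ^ C` for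
`1 ≤ n ≤ X`, and `H_1, …, H_k` integers between `X ^ d_i / (log X) ^ C` and `X ^ d_i (log X) ^ C`. Then the systems
`f_1 + m_1, …, f_k + m_k`, `0 ≤ m_i < H_i`, satisfy the asymptotic formula with relative error `(log X) ^ (-A)`, simultaneously on
all initial intervals `n ≤ y`, `y ≤ X` (hence on all intervals), with the possible exception of at most `N / (log X) ^ A` of the vectors `m`, where `N` is the number of the vectors `m` for which the system is
admissible (has no fixed prime divisor); here the singular series is truncated at `(log X) ^ E`. Moreover, for any fixed weights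
`|c_n| ≤ 1` the weighted sum over the prime values agrees with the prediction of the sieve model.

The exceptional set is small relative to the set of the ADMISSIBLE vectors: the argument runs in each residue class of the vectors `m`
modulo the product `W` of the primes up to a multiple of `log log X`. The proof: the law for one factor for families of small
additive energy (large sieve; the energy of polynomial values from `Pool.Agent.Run7.h536.PW3`) in residue classes modulo `W`,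
telescoping in mean square with a moment bound for the large prime factors of the differences, the fundamental lemma, and lower bounds
for the local factors at the primes larger than `log log X` for almost all vectors in a class. The pieces are by helpers
594, 713, 53, 569, 586, 889, 774, 834, 305.
-/

set_option autoImplicit false

open Finset Polynomial
open scoped Classical

namespace Pool.Agent.Results.MP_51e72e_nt.GrowingPolynomialSystems

/-- the number `ω(p)` of the residue classes `n` modulo `p` such that `p` divides the product of the `f_i(n) + m_i` -/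
noncomputable def omega {k : ℕ} (f : Fin k → ℤ[X]) (m : Fin k → ℤ) (p : ℕ) : ℕ :=
  ((range p).filter (fun n : ℕ => (p : ℤ) ∣ ∏ i, ((f i).eval (n : ℤ) + m i))).card

/-- the partial product over the primes `p ≤ z` of the singular series -/
noncomputable def partC {k : ℕ} (f : Fin k → ℤ[X]) (m : Fin k → ℤ) (z : ℕ) : ℝ :=
  ∏ p ∈ (Icc 1 z).filter Nat.Prime, (1 - (omega f m p : ℝ) / p) / (1 - 1 / (p : ℝ)) ^ k

/-- no prime divides all the values of the product of the `f_i + m_i` -/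
def Admissible {k : ℕ} (f : Fin k → ℤ[X]) (m : Fin k → ℤ) : Prop :=
  ∀ p : ℕ, p.Prime → ∃ n : ℕ, ∀ i, ¬ (p : ℤ) ∣ (f i).eval (n : ℤ) + m i

/-- the sum of `c n * ∏ log (f_i(n) + m_i)` over the `1 ≤ n ≤ x` such that all the `f_i(n) + m_i` are (positive) primes -/
noncomputable def theta {k : ℕ} (f : Fin k → ℤ[X]) (m : Fin k → ℤ) (c : ℕ → ℝ) (x : ℕ) : ℝ :=
  ∑ n ∈ (Icc 1 x).filter (fun n : ℕ => ∀ i, ((f i).eval (n : ℤ) + m i).toNat.Prime),
    c n * ∏ i, Real.log (((f i).eval (n : ℤ) + m i : ℤ) : ℝ)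

/-- the sieve model: `∏ (1 - 1 / p) ^ (-k)` over the primes `p ≤ z` times the sum of `c n` over the `1 ≤ n ≤ x` such that all the
`f_i(n) + m_i` are larger than `z` and without prime factors `p ≤ z` -/
noncomputable def model {k : ℕ} (f : Fin k → ℤ[X]) (m : Fin k → ℤ) (c : ℕ → ℝ) (x z : ℕ) : ℝ :=
  (∏ p ∈ (Icc 1 z).filter Nat.Prime, (1 - 1 / (p : ℝ)))⁻¹ ^ k *
    ∑ n ∈ (Icc 1 x).filter (fun n : ℕ => ∀ i, (z : ℤ) < (f i).eval (n : ℤ) + m i ∧
      ∀ p : ℕ, p.Prime → p ≤ z → ¬ (p : ℤ) ∣ (f i).eval (n : ℤ) + m i), c n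

/-- the asymptotic formulas, on all initial intervals -/
def Formula {k : ℕ} (f : Fin k → ℤ[X]) (m : Fin k → ℤ) (c : ℕ → ℝ) (x A z : ℕ) : Prop :=
  0 < partC f m z ∧ (∀ y : ℕ, y ≤ x → |theta f m (fun _ => 1) y - partC f m z * y| ≤ partC f m z * (x / Real.log x ^ A)) ∧
    |theta f m c x - model f m c x z| ≤ partC f m z * (x / Real.log x ^ A)

/-- the box of the vectors `m` with `0 ≤ m_i < H_i` -/
def box {k : ℕ} (H : Fin k → ℕ) : Finset (Fin k → ℕ) := Fintype.piFinset (fun i => range (H i))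

open Run7.h402.PG Run7.h402.PD
open Run7.h402.PX (fp gp zL)
open Pool.Agent.H373R2.T7 (pz mem_pz lamz Vz)

theorem omega_eq {k : ℕ} (f : Fin k → ℤ[X]) (m : Fin k → ℤ) (p : ℕ) (hp : p.Prime) : omega f m p = nuS f m p := by
  unfold omega nuS
  congr 1
  apply filter_congr
  intro n _
  rw [Prime.dvd_finsetProd_iff (Nat.prime_iff_prime_int.1 hp)]
  simp

theorem partC_eq {k : ℕ} (f : Fin k → ℤ[X]) (m : Fin k → ℤ) (z : ℕ) : lS k (nuS f m) z = partC f m z := by
  unfold lS lf partC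
  apply prod_congr rfl
  intro p hp
  rw [omega_eq f m p (mem_filter.1 hp).2]

theorem eval_mod' (f : ℤ[X]) (p n : ℕ) (a : ℤ) : ((p : ℤ) ∣ f.eval (((n % p : ℕ) : ℤ)) + a) ↔ ((p : ℤ) ∣ f.eval (n : ℤ) + a) := by
  have h1 : (n : ℤ) = ((n % p : ℕ) : ℤ) + (p : ℤ) * ((n / p : ℕ) : ℤ) := by exact_mod_cast (Nat.mod_add_div n p).symm
  have h2 : (p : ℤ) ∣ (n : ℤ) - ((n % p : ℕ) : ℤ) := ⟨((n / p : ℕ) : ℤ), by linear_combination h1⟩
  have h3 : (p : ℤ) ∣ f.eval (n : ℤ) - f.eval (((n % p : ℕ) : ℤ)) := h2.trans (Polynomial.sub_dvd_eval_sub _ _ f)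
  constructor
  · intro h
    have := dvd_add h3 h
    have e : f.eval (n : ℤ) - f.eval (((n % p : ℕ) : ℤ)) + (f.eval (((n % p : ℕ) : ℤ)) + a) = f.eval (n : ℤ) + a := by ring
    rwa [e] at this
  · intro h
    have := dvd_sub h h3
    have e : f.eval (n : ℤ) + a - (f.eval (n : ℤ) - f.eval (((n % p : ℕ) : ℤ))) = f.eval (((n % p : ℕ) : ℤ)) + a := by ring
    rwa [e] at this

theorem adm_iff {k : ℕ} (f : Fin k → ℤ[X]) (m : Fin k → ℤ) : Admissible f m ↔ AdmS f m := by
  constructor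
  · intro h p hp
    obtain ⟨n, hn⟩ := h p hp
    unfold nuS
    have h1 : (range p).filter (fun n : ℕ => ∃ i, (p : ℤ) ∣ (f i).eval (n : ℤ) + m i) ⊆ (range p).erase (n % p) := by
      intro q hq
      rw [mem_filter] at hq
      rw [mem_erase]
      refine ⟨?_, hq.1⟩
      rintro rfl
      obtain ⟨i, hi⟩ := hq.2
      exact hn i ((eval_mod' (f i) p n (m i)).1 hi)
    have h2 := card_le_card h1
    rw [card_erase_of_mem (mem_range.2 (Nat.mod_lt _ hp.pos)), card_range] at h2
    have := hp.pos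
    omega
  · intro h p hp
    by_contra hcon
    push Not at hcon
    have h1 := h p hp
    unfold nuS at h1
    rw [filter_true_of_mem (fun n _ => hcon n), card_range] at h1
    exact lt_irrefl _ h1

theorem theta_eq {k : ℕ} (f : Fin k → ℤ[X]) (m : Fin k → ℤ) (c : ℕ → ℝ) (x : ℕ) : TF f m c x = theta f m c x := by
  unfold TF theta
  rw [sum_filter]
  apply sum_congr rfl
  intro n _
  split_ifs with h
  · congr 1
    apply prod_congr rfl
    intro i _
    have h1 := h i
    unfold Run7.h402.PT.Fp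
    rw [if_pos h1]
    have h2 : 0 < (f i).eval (n : ℤ) + m i := by
      by_contra hcon
      have : ((f i).eval (n : ℤ) + m i).toNat = 0 := Int.toNat_of_nonpos (by omega)
      rw [this] at h1
      exact Nat.not_prime_zero h1
    have h3 : ((((f i).eval (n : ℤ) + m i).toNat : ℕ) : ℤ) = (f i).eval (n : ℤ) + m i := Int.toNat_of_nonneg h2.le
    have h4 : ((((f i).eval (n : ℤ) + m i).toNat : ℕ) : ℝ) = (((f i).eval (n : ℤ) + m i : ℤ) : ℝ) := by
      exact_mod_cast congrArg (Int.cast : ℤ → ℝ) h3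
    rw [h4]
  · push Not at h
    obtain ⟨i, hi⟩ := h
    rw [prod_eq_zero (mem_univ i), mul_zero]
    unfold Run7.h402.PT.Fp
    rw [if_neg hi]

theorem model_eq {k : ℕ} (f : Fin k → ℤ[X]) (m : Fin k → ℤ) (c : ℕ → ℝ) (x z : ℕ) : TG f m c x z = model f m c x z := by
  unfold TG model
  rw [sum_filter, mul_sum]
  apply sum_congr rfl
  intro n _
  have hV : (∏ p ∈ (Icc 1 z).filter Nat.Prime, (1 - 1 / (p : ℝ))) = Vz z := rfl
  rw [hV]
  have hdvd : ∀ i, (z : ℤ) < (f i).eval (n : ℤ) + m i → ∀ p : ℕ, p ∣ ((f i).eval (n : ℤ) + m i).toNat ↔ (p : ℤ) ∣ (f i).eval (n : ℤ) + m i := by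
    intro i hi p
    have h3 : ((((f i).eval (n : ℤ) + m i).toNat : ℕ) : ℤ) = (f i).eval (n : ℤ) + m i := Int.toNat_of_nonneg (by omega)
    rw [← Int.natCast_dvd_natCast, h3]
  split_ifs with h
  · have e : ∏ i, gp z ((f i).eval (n : ℤ) + m i).toNat = ∏ _i : Fin k, (Vz z)⁻¹ := by
      apply prod_congr rfl
      intro i _
      obtain ⟨h1, h2⟩ := h i
      unfold gp lamz
      rw [if_pos (by omega), if_pos]
      intro p hp hpd
      rw [mem_pz] at hp
      exact h2 p hp.2 hp.1 ((hdvd i h1 p).1 hpd)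
    rw [e, prod_const, card_univ, Fintype.card_fin]
    ring
  · push Not at h
    obtain ⟨i, hi⟩ := h
    rw [prod_eq_zero (mem_univ i), mul_zero, mul_zero]
    unfold gp
    split_ifs with h1
    · have h2 : (z : ℤ) < (f i).eval (n : ℤ) + m i := by omega
      obtain ⟨p, hp, hpz, hpd⟩ := hi h2
      unfold lamz
      rw [if_neg]
      intro hcon
      exact hcon p (mem_pz.2 ⟨hpz, hp⟩) ((hdvd i h2 p).2 hpd)
    · rfl

/-- **The Bateman-Horn asymptotic formula for almost all admissible systems of `k ≤ B log log X` polynomials.** -/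
theorem result : ∀ A B C D : ℕ, ∃ E₀ : ℕ, ∀ E : ℕ, E₀ ≤ E → ∃ X₀ : ℕ, ∀ x : ℕ, X₀ ≤ x →
    ∀ k : ℕ, 1 ≤ k → (k : ℝ) ≤ B * Real.log (Real.log x) → ∀ (f : Fin k → ℤ[X]) (H : Fin k → ℕ),
    (∀ i, 1 ≤ (f i).natDegree ∧ (f i).natDegree ≤ D ∧ ∀ p : ℕ, p.Prime → ∃ j : ℕ, 1 ≤ j ∧ ¬ (p : ℤ) ∣ (f i).coeff j) →
    (∀ i, ∀ n : ℕ, 1 ≤ n → n ≤ x → 0 ≤ (f i).eval (n : ℤ) ∧
      (((f i).eval (n : ℤ) : ℤ) : ℝ) ≤ (x : ℝ) ^ (f i).natDegree * Real.log x ^ C) →
    (∀ i, (x : ℝ) ^ (f i).natDegree / Real.log x ^ C ≤ H i ∧ (H i : ℝ) ≤ (x : ℝ) ^ (f i).natDegree * Real.log x ^ C) →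
    ∀ c : ℕ → ℝ, (∀ n, |c n| ≤ 1) →
    (((box H).filter (fun m : Fin k → ℕ => Admissible f (fun i => (m i : ℤ)) ∧
      ¬ Formula f (fun i => (m i : ℤ)) c x A ⌊Real.log x ^ E⌋₊)).card : ℝ) ≤
      (((box H).filter (fun m : Fin k → ℕ => Admissible f (fun i => (m i : ℤ)))).card : ℝ) / Real.log x ^ A := by
  intro A B C D
  have hNU : S_NU := Run7.h774.PG.t_NU
  have hREP : S_REP := Pool.Agent.Run7.h594.PG.t_REP
  have hMER : S_MER := Pool.Agent.Helper256.KM.mertens_inv
  obtain ⟨E0, h0⟩ := main_all Run7.h889.PG.t_LF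
    (Run7.h569.PG.t_MO (Pool.Agent.Run7.h594.PG.t_DV hREP) Run7.h53.PG.t_MOA Run7.h53.PG.t_MOB Run7.h713.PG.t_MOC)
    Run7.h713.PG.t_EQ (Run7.h586.PG.t_PE (Run7.h713.PG.t_SU hREP)) Run7.h586.PG.t_ML hNU
    (Run7.h774.PG.t_SA hNU Run7.h774.PG.t_INV (Run7.h774.PG.t_MI hNU)) (Run7.h834.PG.t_SB hNU hMER)
    (Run7.h834.PG.t_SC hNU (Run7.h305.PG.t_LC hNU)) A B C D
  refine ⟨E0, fun E hE => ?_⟩
  obtain ⟨X0, h1⟩ := h0 E hE
  refine ⟨max X0 3, fun x hx k hk hkB f H hf hval hH c hc => ?_⟩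
  have hx3 : 3 ≤ x := le_trans (le_max_right _ _) hx
  have hlog : 0 < Real.log x := by
    apply Real.log_pos
    exact_mod_cast (by omega : 1 < x)
  have h2 := h1 x (le_trans (le_max_left _ _) hx) k hk hkB f (fun i => ⟨(hf i).1, (hf i).2.1⟩) (fun i p hp => (hf i).2.2 p hp)
    (fun i n hn => hval i n (mem_Icc.1 hn).1 (mem_Icc.1 hn).2) H (fun i => ⟨by
      have := (hH i).1
      rwa [div_le_iff₀ (by positivity)] at this, (hH i).2⟩) c hc
  have e1 : (box H).filter (fun m : Fin k → ℕ => Admissible f (fun i => (m i : ℤ)) ∧ ¬ Formula f (fun i => (m i : ℤ)) c x A ⌊Real.log x ^ E⌋₊) =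
      (Fintype.piFinset (fun i : Fin k => range (H i))).filter (fun m : Fin k → ℕ => AdmS f (fun i => (m i : ℤ)) ∧
        ¬ GoodR f (fun i => (m i : ℤ)) c x A (zL E (Real.log x))) := by
    unfold box
    apply filter_congr
    intro m _
    rw [adm_iff]
    unfold GoodR Formula
    simp only [partC_eq, theta_eq, model_eq]
    rfl
  have e2 : (box H).filter (fun m : Fin k → ℕ => Admissible f (fun i => (m i : ℤ))) =
      (Fintype.piFinset (fun i : Fin k => range (H i))).filter (fun m : Fin k → ℕ => AdmS f (fun i => (m i : ℤ))) := by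
    unfold box
    apply filter_congr
    intro m _
    rw [adm_iff]
  rw [e1, e2]
  refine h2.trans (le_of_eq ?_)
  ring

end Pool.Agent.Results.MP_51e72e_nt.GrowingPolynomialSystems
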