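import Pool.Agent.Run7.h385.PQ.Asm

/-!
Poisson statistics of the prime values of almost every system of polynomials, at the scale of the
mean spacing and for arguments up to a power of the height.

Systems `f_l = F_l + c_l0 + c_l1 x + … + c_l(d-1) x^(d-1)`, `l = 1, …, g`, with `d ≥ 2` random
coefficients each, in a box of size `X`, and arbitrary `F_l`; arguments `n ≤ N` where
`N^(5(d-1)) (log X)^B ≤ X`.  `S(n)` is the number of arguments with `|f_1|, …, |f_g|` all prime in the
window `(n, n + N_n]` whose length `N_n` is such that the formula of Schinzel, Bateman and Horn predicts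
`lam` of them.  Quenched: for almost every system, the `S(n)`, `m < n ≤ m + M`, have Poisson moments up
to order `d - 1`.  Annealed: for every single `n`, `S(n)` has Poisson moments up to order `2 d - 1` over
the systems.

Method.  (1) The supremum over all frequencies of the exponential sum over primes minus its sieve
model is small in almost all intervals of length `K^(2/3) (log K)^B` (bilinear forms on the minor arcs;
the zeros of Dirichlet functions, in almost all intervals, on the major arcs).  (2) `2 d - 1` values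
`f(n_i)` of a polynomial with `d` free coefficients are linear forms of complexity one: shift the
coefficients along `∏_{i ∈ A} (x - n_i)` and `∏_{i ∈ B} (x - n_i)`, `|A|, |B| ≤ d - 1`; so primes may be
replaced by the model.  (3) The model by a pure sieve, in classes modulo the product of the primes up
to `log log X / 4`; moments as sums over tuples, jointly for two windows; variance.
-/

set_option autoImplicit false

namespace Pool.Agent.Results.MP_51e72e_nt.QuenchedPoissonStatistics

open Finset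
open scoped Polynomial

/-- the polynomials `F_l + c_l0 + c_l1 x + … + c_l(d-1) x^(d-1)` -/
noncomputable def poly {g d : ℕ} (F : Fin g → ℤ[X]) (c : Fin g → Fin d → ℤ) (l : Fin g) : ℤ[X] :=
  F l + ∑ j : Fin d, Polynomial.C (c l j) * Polynomial.X ^ (j : ℕ)

/-- the number of the residues `n` modulo `p` such that `p` divides `f_1(n) ⋯ f_g(n)` -/
def omega {g : ℕ} (f : Fin g → ℤ[X]) (p : ℕ) : ℕ :=
  #((range p).filter (fun n : ℕ => ∃ l, (p : ℤ) ∣ (f l).eval (n : ℤ)))

/-- the product defining the constant of Bateman and Horn, taken over the primes `p ≤ w` -/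
noncomputable def const {g : ℕ} (f : Fin g → ℤ[X]) (w : ℕ) : ℝ :=
  ∏ p ∈ (range (w + 1)).filter Nat.Prime, (1 - (omega f p : ℝ) / p) / (1 - 1 / (p : ℝ)) ^ g

/-- `w(X) = ⌊log log X / 4⌋` -/
noncomputable def w (X : ℕ) : ℕ := ⌊Real.log (Real.log X) / 4⌋₊

/-- the number of the `n` in `(m, m + N]` such that `|f_1(n)|, …, |f_g(n)|` are all prime -/
def count {g : ℕ} (f : Fin g → ℤ[X]) (m N : ℕ) : ℕ :=
  #((Ioc m (m + N)).filter (fun n : ℕ => ∀ l, ((f l).eval (n : ℤ)).natAbs.Prime))

/-- the length `⌈lam (log (X (m+1)^(d-1)))^g / const⌉` of the window at `m` -/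
noncomputable def len {g : ℕ} (X d m : ℕ) (lam : ℝ) (f : Fin g → ℤ[X]) : ℕ :=
  ⌈lam * Real.log (X * ((m : ℝ) + 1) ^ (d - 1)) ^ g / const f (w X)⌉₊

/-- the number of prime values in the window at `m` -/
noncomputable def S {g : ℕ} (X d : ℕ) (lam : ℝ) (f : Fin g → ℤ[X]) (m : ℕ) : ℕ := count f m (len X d m lam f)

/-- the box of the coefficients `a_lj ≤ c_lj < a_lj + Y_lj` -/
noncomputable def box {g d : ℕ} (a : Fin g → Fin d → ℤ) (Y : Fin g → Fin d → ℕ) : Finset (Fin g → Fin d → ℤ) :=
  Fintype.piFinset (fun l => Fintype.piFinset (fun j => Ico (a l j) (a l j + Y l j)))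

/-- the coefficients in the box for which no prime `p ≤ w(X)` divides all the products `f_1(n) ⋯ f_g(n)` -/
noncomputable def adm {g d : ℕ} (X : ℕ) (F : Fin g → ℤ[X]) (a : Fin g → Fin d → ℤ) (Y : Fin g → Fin d → ℕ) :
    Finset (Fin g → Fin d → ℤ) := (box a Y).filter (fun c => 0 < const (poly F c) (w X))

/-- `|F_l(n)| ≤ X n^(d-1) (log X)^C` for `1 ≤ n ≤ N`, and the box has its corner in `[-X, X]^(gd)` and its
sides in `[X / (log X)^C, X]` -/
def Sizes {g d : ℕ} (C X N : ℕ) (F : Fin g → ℤ[X]) (a : Fin g → Fin d → ℤ) (Y : Fin g → Fin d → ℕ) : Prop :=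
  (∀ l, ∀ n : ℕ, 1 ≤ n → n ≤ N → |(((F l).eval (n : ℤ) : ℤ) : ℝ)| ≤ X * (n : ℝ) ^ (d - 1) * Real.log X ^ C) ∧
  (∀ l j, |(a l j : ℝ)| ≤ X ∧ (X : ℝ) / Real.log X ^ C ≤ Y l j ∧ (Y l j : ℝ) ≤ X)

/-- on the finite set `s`, the variable `T` has, up to `ε`, the factorial moments of orders up to `K` of
a Poisson variable of parameter `lam`; its probabilities differ from those of the Poisson distribution
by at most `lam^K / (j! (K-j)!) + ε`; and it vanishes with probability at most
`1 / (1 + lam + … + lam^k / k!) + ε`, `k = ⌊K / 2⌋` -/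
def Poissonian {ι : Type} (K : ℕ) (lam ε : ℝ) (s : Finset ι) (T : ι → ℕ) : Prop :=
  (∀ k ≤ K, |∑ i ∈ s, (((T i).descFactorial k : ℕ) : ℝ) - lam ^ k * #s| ≤ ε * #s) ∧
  (∀ j ≤ K, |(#(s.filter (fun i => T i = j)) : ℝ) - Real.exp (-lam) * lam ^ j / j.factorial * #s| ≤
    (lam ^ K / (j.factorial * (K - j).factorial) + ε) * #s) ∧
  (#(s.filter (fun i => T i = 0)) : ℝ) ≤ (1 / (∑ i ∈ range (K / 2 + 1), lam ^ i / (i.factorial : ℝ)) + ε) * #s

/-- Quenched and annealed Poisson statistics.  For all `d ≥ 2`, `g ≥ 1`, `C` there is `B` such that for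
all `lam, ε > 0` there is `c0 > 0` such that for all large `X`, all `N` with
`N^(5(d-1)) (log X)^B ≤ X`, and all `F_l` and boxes as in `Sizes`:

(i) for all `m`, `M` with `(log X)^(g+3) ≤ M`, `m + M + (log X)^(g+5) ≤ N`, all admissible systems but at most
`ε` of them have Poissonian statistics of order `d - 1` of the numbers `S(n)` of prime values in the
windows at `n`, `m < n ≤ m + M`, and at least `c0 M` of these windows contain at least `d - 1` prime
values;

(ii) for all `m` with `m + (log X)^(g+5) ≤ N`, the number `S(m)` has Poissonian statistics of order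
`2 d - 1` over the admissible systems.

The admissible systems are a positive proportion of each box. -/
theorem result (d g C : ℕ) (hd : 2 ≤ d) (hg : 1 ≤ g) :
    (∃ B : ℕ, ∀ lam ε : ℝ, 0 < lam → 0 < ε → ∃ c0 : ℝ, 0 < c0 ∧ ∃ X0 : ℕ, ∀ X : ℕ, X0 ≤ X → ∀ N : ℕ,
      (N : ℝ) ^ (5 * (d - 1)) * Real.log X ^ B ≤ X →
      ∀ (F : Fin g → ℤ[X]) (a : Fin g → Fin d → ℤ) (Y : Fin g → Fin d → ℕ), Sizes C X N F a Y →
      (∀ m M : ℕ, Real.log X ^ (g + 3) ≤ M → (m : ℝ) + M + Real.log X ^ (g + 5) ≤ N →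
        ∃ bad : Finset (Fin g → Fin d → ℤ), bad ⊆ adm X F a Y ∧ (bad.card : ℝ) ≤ ε * #(adm X F a Y) ∧
          ∀ c ∈ adm X F a Y, c ∉ bad →
            Poissonian (d - 1) lam ε (Ioc m (m + M)) (fun n => S X d lam (poly F c) n) ∧
            c0 * M ≤ #((Ioc m (m + M)).filter (fun n => d - 1 ≤ S X d lam (poly F c) n))) ∧
      (∀ m : ℕ, (m : ℝ) + Real.log X ^ (g + 5) ≤ N →
        Poissonian (2 * d - 1) lam ε (adm X F a Y) (fun c => S X d lam (poly F c) m))) ∧
    (∃ c1 : ℝ, 0 < c1 ∧ ∃ X0 : ℕ, ∀ X : ℕ, X0 ≤ X →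
      ∀ (F : Fin g → ℤ[X]) (a : Fin g → Fin d → ℤ) (Y : Fin g → Fin d → ℕ),
        (∀ l j, (X : ℝ) / Real.log X ^ C ≤ Y l j) → c1 * #(box a Y) ≤ #(adm X F a Y)) := by
  constructor
  · obtain ⟨B, h⟩ := Run7.h385.PQ.Fin2.main Run7.h385.PQ.a_ALLJ d g C hd hg
    refine ⟨B, fun lam ε hlam hε => ?_⟩
    obtain ⟨c0, hc0, X0, h1⟩ := h lam ε hlam hε
    refine ⟨c0, hc0, X0, fun X hX N hN F a Y hS => ?_⟩
    exact h1 X hX N hN F a Y hS
  · exact Run7.h385.PO.Fin1.adm_main d g C hd

end Pool.Agent.Results.MP_51e72e_nt.QuenchedPoissonStatistics
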