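import Pool.Agent.Run7.h462.KT.All

/-!
# Systems `F + a_1, ..., F + a_k`: the Bateman-Horn lower bound for a positive proportion of the `k`-tuples of constant
terms, in short ranges and in windows of length `C log N`

Let `F` be ANY integer polynomial of degree `d ≥ 2` with positive leading coefficient, `k ≥ 1` and `η, ε > 0`. There is `C₀` such
that for `N ^ (max (3 d / 4 - 1) (d - 2) + ε) ≤ A ≤ N ^ (d - 1)`, every `H` with `C₀ log N ≤ H ≤ A` and large `N`: for a positive
proportion of the `k`-tuples of distinct integers `1 ≤ a_i ≤ A` with `|a_i - a_j| ≤ H` the polynomials `F + a_i` are irreducible,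
have no common fixed prime divisor, and the number of the `n ≤ N` for which ALL `F(n) + a_i` are primes is at least `1 - η` times
the number predicted by Schinzel's hypothesis H in its quantitative form (Bateman and Horn), with the constant
replaced by the product over the primes `p ≤ z`, for all `z` between a power of `log N` and `N ^ (1/6)` at the same time; this
product is bounded from below. The windows are as short as possible up to the constant: for `H = o(log N)` there are on average no two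
primes in `F(n) + a`, `a` in a window of length `H`.

Method. First moment (see `PositiveProportionEveryDegree`, project BPG): exponential sums over primes with the phases `s h p ^ (1/d)`
on average over `h`. For the windows: the power mean inequality for the number of the primes `F(n) + a`, `a` in the window. Upper bounds:
the upper bound sieve for the product of the `F + a_i` with the truncated singular series as density; its first moment over the
tuples is computed by the sieve and Gallagher's average of the singular series; its second moment is bounded; it is independent of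
the cut for almost all tuples. So the excess cannot be carried by few tuples.
-/

set_option autoImplicit false

namespace Pool.Agent.Results.MP_51e72e_nt.SystemsInShortWindows

open Finset Filter Topology
open Polynomial (X)
open scoped Polynomial

variable {k : ℕ}

/-- the number of residues `x` modulo `p` such that `p` divides the product of the `F(x) + a_i` -/
def omega (F : ℤ[X]) (a : Fin k → ℕ) (p : ℕ) : ℕ :=
  #((range p).filter (fun x : ℕ => (p : ℤ) ∣ ∏ i, (F.eval (x : ℤ) + a i)))

/-- the product of `(1 - omega(p) / p) / (1 - 1 / p) ^ k` over the primes `p ≤ z` -/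
noncomputable def S (F : ℤ[X]) (a : Fin k → ℕ) (z : ℕ) : ℝ :=
  ∏ p ∈ (Icc 1 z).filter Nat.Prime, (1 - (omega F a p : ℝ) / p) / (1 - 1 / (p : ℝ)) ^ k

/-- the number of integers `1 ≤ n ≤ N` such that all `F(n) + a_i` are primes -/
def P (F : ℤ[X]) (a : Fin k → ℕ) (N : ℕ) : ℕ :=
  #((Icc 1 N).filter (fun n : ℕ => ∀ i, Nat.Prime (F.eval (n : ℤ) + a i).toNat))

/-- the system of the polynomials `F + a_i` satisfies the conditions of Schinzel's hypothesis: they are irreducible and their
product has no fixed prime divisor -/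
def Schinzel (F : ℤ[X]) (a : Fin k → ℕ) : Prop :=
  (∀ i, Irreducible (F + Polynomial.C (a i : ℤ))) ∧
  ∀ p : ℕ, p.Prime → ∃ n : ℕ, ¬ (p : ℤ) ∣ ∏ i, (F.eval (n : ℤ) + a i)

/-- the conclusion for one tuple -/
def Good (F : ℤ[X]) (η c : ℝ) (B N : ℕ) (a : Fin k → ℕ) : Prop :=
  Schinzel F a ∧
  ∀ z : ℕ, Real.log N ^ B ≤ z → z ^ 6 ≤ N →
    c ≤ S F a z ∧ (1 - η) * (S F a z * (N / (F.natDegree * Real.log N) ^ k)) ≤ P F a N

lemma omega_eq (F : ℤ[X]) (a : Fin k → ℕ) (p : ℕ) : omega F a p = Run7.h462.KT.rk F a p := by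
  unfold omega Run7.h462.KT.rk Pool.Agent.TH204.WR.rho
  congr 1
  apply filter_congr
  intro x _
  rw [add_zero, Run7.h462.KT.eval_Q]

lemma S_eq (F : ℤ[X]) (a : Fin k → ℕ) (z : ℕ) : S F a z = Run7.h462.KT.gk F a z := by
  rw [Run7.h462.KT.gk_eq_prod]
  unfold S Pool.Agent.H373R2.T7.pz
  apply prod_congr rfl
  intro p _
  rw [omega_eq]

/-- a system with many simultaneous primes has no fixed prime divisor -/
lemma no_fixed (F : ℤ[X]) (hd : 2 ≤ F.natDegree) (a : Fin k → ℕ) (N : ℕ) (h : k * F.natDegree < P F a N)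
    (p : ℕ) (hp : p.Prime) : ∃ n : ℕ, ¬ (p : ℤ) ∣ ∏ i, (F.eval (n : ℤ) + a i) := by
  classical
  by_contra hcon
  push Not at hcon
  have hp' : Prime (p : ℤ) := Nat.prime_iff_prime_int.1 hp
  have h1 : (Icc 1 N).filter (fun n : ℕ => ∀ i, Nat.Prime (F.eval (n : ℤ) + a i).toNat) ⊆
      (univ : Finset (Fin k)).biUnion (fun i => (Icc 1 N).filter
        (fun n : ℕ => (F + Polynomial.C (a i : ℤ)).eval (n : ℤ) = (p : ℤ))) := by
    intro n hn
    rw [mem_filter] at hn
    have h2 := hcon n
    rw [Prime.dvd_finsetProd_iff hp'] at h2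
    obtain ⟨i, _, hi⟩ := h2
    rw [mem_biUnion]
    refine ⟨i, mem_univ _, ?_⟩
    rw [mem_filter]
    refine ⟨hn.1, ?_⟩
    rw [Polynomial.eval_add, Polynomial.eval_C]
    have h3 := hn.2 i
    have hpos : 0 < F.eval (n : ℤ) + a i := by
      have := h3.pos
      omega
    have e1 : ((F.eval (n : ℤ) + a i).toNat : ℤ) = F.eval (n : ℤ) + a i := Int.toNat_of_nonneg hpos.le
    rw [← e1] at hi ⊢
    have h4 : p ∣ (F.eval (n : ℤ) + a i).toNat := by exact_mod_cast hi
    have h5 := (Nat.prime_dvd_prime_iff_eq hp h3).1 h4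
    rw [← h5]
  have h2 : ∀ i : Fin k, #((Icc 1 N).filter (fun n : ℕ => (F + Polynomial.C (a i : ℤ)).eval (n : ℤ) = (p : ℤ))) ≤
      F.natDegree := by
    intro i
    have hdeg : (F + Polynomial.C (a i : ℤ)).natDegree = F.natDegree := Polynomial.natDegree_add_C
    have h3 := Run7.h462.QA.card_eval_eq (F + Polynomial.C (a i : ℤ)) (p : ℤ) (by
      intro h4
      rw [h4, Polynomial.natDegree_C] at hdeg
      omega) (Icc 1 N)
    rw [hdeg] at h3
    exact h3
  have h3 : P F a N ≤ k * F.natDegree := by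
    unfold P
    refine (card_le_card h1).trans (card_biUnion_le.trans ?_)
    refine (sum_le_sum fun i _ => h2 i).trans ?_
    simp
  omega

open Classical in
theorem result (F : ℤ[X]) (hd : 2 ≤ F.natDegree) (hl : 0 < F.leadingCoeff) (k : ℕ) (hk : 1 ≤ k) (η : ℝ) (hη : 0 < η) :
    ∃ (B : ℕ) (c C₀ : ℝ), 0 < c ∧ 0 < C₀ ∧ ∀ ε : ℝ, 0 < ε → ∃ N₀ : ℕ, ∀ N : ℕ, N₀ ≤ N → ∀ A H : ℕ,
      (N : ℝ) ^ (max (3 / 4 * (F.natDegree : ℝ) - 1) ((F.natDegree : ℝ) - 2) + ε) ≤ A →
      (A : ℝ) ≤ (N : ℝ) ^ (F.natDegree - 1) → C₀ * Real.log N ≤ H → H ≤ A →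
      c * (A * (H : ℝ) ^ (k - 1)) ≤ #((Fintype.piFinset (fun _ : Fin k => Icc 1 A)).filter
        (fun a => Function.Injective a ∧ (∀ i j, a i ≤ a j + H) ∧ Good F η c B N a)) := by
  obtain ⟨B, c, C₀, hc, hC₀, h⟩ := Run7.h462.KT.coreK F k hk hd hl (min η (1 / 2)) (lt_min hη (by norm_num))
    (min_le_right _ _)
  refine ⟨B, c, C₀, hc, hC₀, fun ε hε => ?_⟩
  obtain ⟨N₀, h⟩ := h ε hε
  obtain ⟨N₁, h1⟩ := eventually_atTop.1 (Run7.h757.BP.Fin.rpow_ge_log (1 / 6) (by norm_num) B 2 (by norm_num))
  obtain ⟨N₂, h2⟩ := eventually_atTop.1 (Run7.h757.BP.Fin.rpow_ge_log 1 (by norm_num) k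
    (4 * (F.natDegree : ℝ) ^ k * (k * F.natDegree + 2 * F.natDegree + 1) / c) (by positivity))
  refine ⟨N₀ + N₁ + N₂ + 3, fun N hN A H hA1 hA2 hH1 hH2 => ?_⟩
  have h1 := h1 N (by omega)
  have h2 := h2 N (by omega)
  have hdR : (2 : ℝ) ≤ F.natDegree := by exact_mod_cast hd
  have hN3 : (3 : ℝ) ≤ N := by exact_mod_cast (by omega : 3 ≤ N)
  have hlog : 1 ≤ Real.log N := by
    rw [Real.le_log_iff_exp_le (by linarith)]
    linarith [Real.exp_one_lt_d9]
  rw [← Run7.h462.QA.lam_range _ hd] at hA1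
  refine (h N (by omega) A H hA1 hA2 hH1 hH2).trans ?_
  norm_cast
  apply card_le_card
  intro a ha
  rw [mem_filter] at ha ⊢
  obtain ⟨ha1, ha2, ha3, ha4⟩ := ha
  have hgood : ∀ z : ℕ, Real.log N ^ B ≤ z → z ^ 6 ≤ N →
    c ≤ S F a z ∧ (1 - min η (1 / 2)) * (S F a z * (N / (F.natDegree * Real.log N) ^ k)) ≤ P F a N := by
    intro z hz1 hz2
    rw [S_eq]
    exact ha4 z hz1 hz2
  refine ⟨ha1, ha2, ha3, ?_, fun z hz1 hz2 => ?_⟩
  · -- irreducibility, no fixed divisor
    obtain ⟨z, hz⟩ : ∃ z : ℕ, z = ⌈Real.log N ^ B⌉₊ := ⟨_, rfl⟩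
    have hz1 : Real.log N ^ B ≤ z := by rw [hz]; exact Nat.le_ceil _
    have hB1 : 1 ≤ Real.log N ^ B := one_le_pow₀ hlog
    have hz2 : (z : ℝ) ≤ (N : ℝ) ^ (1 / 6 : ℝ) := by
      have h3 : (z : ℝ) < Real.log N ^ B + 1 := by rw [hz]; exact Nat.ceil_lt_add_one (by positivity)
      linarith
    have hz3 : z ^ 6 ≤ N := by
      have h3 : (z : ℝ) ^ 6 ≤ N := by
        calc (z : ℝ) ^ 6 ≤ ((N : ℝ) ^ (1 / 6 : ℝ)) ^ 6 := by gcongr
          _ = (N : ℝ) := by
              rw [← Real.rpow_natCast, ← Real.rpow_mul (by linarith)]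
              norm_num
      exact_mod_cast h3
    obtain ⟨h3, h4⟩ := hgood z hz1 hz3
    have h5 : ((k * F.natDegree + 2 * F.natDegree : ℕ) : ℝ) < P F a N := by
      refine lt_of_lt_of_le ?_ h4
      have h6 : 1 / 2 ≤ 1 - min η (1 / 2) := by linarith [min_le_right η (1 / 2)]
      have hL0 : 0 < Real.log N := by linarith
      have h8 : 1 / 2 * (c * (N / (F.natDegree * Real.log N) ^ k)) ≤
          (1 - min η (1 / 2)) * (S F a z * (N / (F.natDegree * Real.log N) ^ k)) := by gcongr
      refine lt_of_lt_of_le ?_ h8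
      rw [Real.rpow_one, div_mul_eq_mul_div, div_le_iff₀ hc] at h2
      have h9 : 1 / 2 * (c * (N / (F.natDegree * Real.log N) ^ k)) = (N * c) / (2 * (F.natDegree * Real.log N) ^ k) := by
        field_simp
      have h10 : 0 < ((F.natDegree : ℝ) * Real.log N) ^ k := by positivity
      rw [h9, lt_div_iff₀ (by positivity)]
      refine lt_of_lt_of_le ?_ h2
      have h11 : 4 * (F.natDegree : ℝ) ^ k * (k * F.natDegree + 2 * F.natDegree + 1) * Real.log N ^ k =
          4 * (k * F.natDegree + 2 * F.natDegree + 1) * ((F.natDegree : ℝ) * Real.log N) ^ k := by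
        rw [mul_pow]
        ring
      rw [h11]
      push_cast
      have h12 : (0 : ℝ) ≤ k * F.natDegree + 2 * F.natDegree := by positivity
      nlinarith
    have h6 : k * F.natDegree + 2 * F.natDegree < P F a N := by exact_mod_cast h5
    refine ⟨fun i => ?_, fun p hp => no_fixed F hd a N (by omega) p hp⟩
    have hdeg : (F + Polynomial.C (a i : ℤ)).natDegree = F.natDegree := Polynomial.natDegree_add_C
    apply Run7.h462.QA.irr _ (by rw [hdeg]; omega) (Icc 1 N)
    rw [hdeg]
    have h7 : 2 * F.natDegree < P F a N := by omega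
    refine lt_of_lt_of_le h7 ?_
    unfold P
    apply card_le_card
    intro n hn
    rw [mem_filter] at hn ⊢
    refine ⟨hn.1, ?_⟩
    rw [Polynomial.eval_add, Polynomial.eval_C]
    exact hn.2 i
  · obtain ⟨h1, h2⟩ := hgood z hz1 hz2
    refine ⟨h1, le_trans ?_ h2⟩
    apply mul_le_mul_of_nonneg_right
    · linarith [min_le_left η (1 / 2)]
    · have h4 : 0 ≤ S F a z := hc.le.trans h1
      have hL0 : 0 < Real.log N := by linarith
      positivity

end Pool.Agent.Results.MP_51e72e_nt.SystemsInShortWindows
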