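import Pool.Agent.Run7.h385.PT.Fin4

/-!
Prime tuples along almost every polynomial, at the optimal scale: the asymptotic formula of Bateman
and Horn for the `g k` polynomials `f_l(x + h_i)`, `l ≤ g`, `i ≤ k`.

Systems `f_l = F_l + c_l0 + c_l1 x + … + c_l(d-1) x^(d-1)`, `l = 1, …, g`, with `d ≥ 2` random
coefficients each, in a box of size `X`, and arbitrary `F_l`; `k ≤ d - 1` distinct shifts
`h_i ≤ (log X)^C`; arguments `n ≤ N` where `N^(5(d-1)) (log X)^B ≤ X`.  For almost every system the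
number of the `n` in `(m, m + M]` with all the `|f_l(n + h_i)|` prime is asymptotic to the value
predicted by Bateman and Horn, as soon as this value tends to infinity.  For instance, for 100 percent
of the quadratic polynomials `f`, the pairs of prime values `f(n), f(n + h)` (twin primes along `f`),
and for degree `r` (all `r + 1` coefficients random) the `k`-tuples `f(n + h_1), …, f(n + h_k)`,
`k ≤ r`, have the conjectured density, in all windows in which many of them are expected.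

Method.  (1) The supremum over all frequencies of the exponential sum over primes minus its sieve
model is small in almost all intervals of length `K^(2/3) (log K)^B`.  (2) The `2 k ≤ 2 d - 1` values
`f(n + h_i), f(n' + h_i)` of a polynomial with `d` free coefficients are linear forms of complexity
one, so that the second moment over the polynomials can be computed although these forms are
dependent.  (3) The model by a pure sieve, in classes modulo the product of the primes up to
`log log X / 4`; short windows, and convexity for the long ones.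
-/

set_option autoImplicit false

namespace Pool.Agent.Results.MP_51e72e_nt.TuplesAlongRandomPolynomials

open Finset
open scoped Polynomial

/-- the polynomials `F_l + c_l0 + c_l1 x + … + c_l(d-1) x^(d-1)` -/
noncomputable def poly {g d : ℕ} (F : Fin g → ℤ[X]) (c : Fin g → Fin d → ℤ) (l : Fin g) : ℤ[X] :=
  F l + ∑ j : Fin d, Polynomial.C (c l j) * Polynomial.X ^ (j : ℕ)

/-- the number of the residues `n` modulo `p` such that `p` divides one of the `f_l(n + h_i)` -/
def omega {g k : ℕ} (f : Fin g → ℤ[X]) (h : Fin k → ℕ) (p : ℕ) : ℕ :=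
  #((range p).filter (fun n : ℕ => ∃ l i, (p : ℤ) ∣ (f l).eval ((n + h i : ℕ) : ℤ)))

/-- the product defining the constant of Bateman and Horn of the system of the `g k` polynomials
`f_l(x + h_i)`, taken over the primes `p ≤ w` -/
noncomputable def const {g k : ℕ} (f : Fin g → ℤ[X]) (h : Fin k → ℕ) (w : ℕ) : ℝ :=
  ∏ p ∈ (range (w + 1)).filter Nat.Prime, (1 - (omega f h p : ℝ) / p) / (1 - 1 / (p : ℝ)) ^ (g * k)

/-- `w(X) = ⌊log log X / 4⌋` -/
noncomputable def w (X : ℕ) : ℕ := ⌊Real.log (Real.log X) / 4⌋₊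

/-- the sum of `(log (X (n+1)^(d-1)))^(g k)` over the `n` in `(m, m + M]` with all `|f_l(n + h_i)|` prime -/
noncomputable def psi {g k : ℕ} (X d : ℕ) (f : Fin g → ℤ[X]) (h : Fin k → ℕ) (m M : ℕ) : ℝ :=
  ∑ n ∈ (Ioc m (m + M)).filter (fun n : ℕ => ∀ l i, ((f l).eval ((n + h i : ℕ) : ℤ)).natAbs.Prime),
    Real.log (X * ((n : ℝ) + 1) ^ (d - 1)) ^ (g * k)

/-- the number `const M / (log (X (m+1)^(d-1)))^(g k)` of the `n` in `(m, m + M]` expected by Bateman and Horn -/
noncomputable def expected {g k : ℕ} (X d : ℕ) (f : Fin g → ℤ[X]) (h : Fin k → ℕ) (m M : ℕ) : ℝ :=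
  const f h (w X) * M / Real.log (X * ((m : ℝ) + 1) ^ (d - 1)) ^ (g * k)

/-- the box of the coefficients `a_lj ≤ c_lj < a_lj + Y_lj` -/
noncomputable def box {g d : ℕ} (a : Fin g → Fin d → ℤ) (Y : Fin g → Fin d → ℕ) : Finset (Fin g → Fin d → ℤ) :=
  Fintype.piFinset (fun l => Fintype.piFinset (fun j => Ico (a l j) (a l j + Y l j)))

/-- the coefficients in the box for which no prime `p ≤ w(X)` divides all the products of the
`f_l(n + h_i)` -/
noncomputable def adm {g d k : ℕ} (X : ℕ) (F : Fin g → ℤ[X]) (h : Fin k → ℕ) (a : Fin g → Fin d → ℤ)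
    (Y : Fin g → Fin d → ℕ) : Finset (Fin g → Fin d → ℤ) := (box a Y).filter (fun c => 0 < const (poly F c) h (w X))

/-- `|F_l(n)| ≤ X n^(d-1) (log X)^C` for `1 ≤ n ≤ N`, and the box has its corner in `[-X, X]^(gd)` and its
sides in `[X / (log X)^C, X]` -/
def Sizes {g d : ℕ} (C X N : ℕ) (F : Fin g → ℤ[X]) (a : Fin g → Fin d → ℤ) (Y : Fin g → Fin d → ℕ) : Prop :=
  (∀ l, ∀ n : ℕ, 1 ≤ n → n ≤ N → |(((F l).eval (n : ℤ) : ℤ) : ℝ)| ≤ X * (n : ℝ) ^ (d - 1) * Real.log X ^ C) ∧
  (∀ l j, |(a l j : ℝ)| ≤ X ∧ (X : ℝ) / Real.log X ^ C ≤ Y l j ∧ (Y l j : ℝ) ≤ X)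

/-- For all `d ≥ 2`, `g ≥ 1`, `1 ≤ k ≤ d - 1`, `C` there is `B` such that for all `ε > 0` there is `Lam` such
that for all large `X`, all `N` with `N^(5(d-1)) (log X)^B ≤ X`, all `F_l` and boxes as in `Sizes`, all
distinct shifts `h_i ≤ (log X)^C` and all `m`, `M` with `m + M + (log X)^(C+gk+5) ≤ N`: for all
admissible systems in the box but at most `ε` of them, if at least `Lam` of the `n` in the window are
expected to be tuples of prime values, then `psi = (1 + O(ε)) const M`.  At least `Lam` are expected, for all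
systems with `const > 0`, if `M ≥ (log X)^(gk+1)`.  The admissible systems are a positive
proportion of the box. -/
theorem result (d g k C : ℕ) (hd : 2 ≤ d) (hg : 1 ≤ g) (hk1 : 1 ≤ k) (hk : k + 1 ≤ d) :
    (∃ B : ℕ, ∀ ε : ℝ, 0 < ε → ∃ Lam : ℝ, ∃ X0 : ℕ, ∀ X : ℕ, X0 ≤ X → ∀ N : ℕ,
      (N : ℝ) ^ (5 * (d - 1)) * Real.log X ^ B ≤ X →
      ∀ (F : Fin g → ℤ[X]) (a : Fin g → Fin d → ℤ) (Y : Fin g → Fin d → ℕ), Sizes C X N F a Y →
      ∀ h : Fin k → ℕ, Function.Injective h → (∀ i, (h i : ℝ) ≤ Real.log X ^ C) →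
      ∀ m M : ℕ, (m : ℝ) + M + Real.log X ^ (C + g * k + 5) ≤ N →
        (#((adm X F h a Y).filter (fun c => Lam ≤ expected X d (poly F c) h m M ∧
          ε * (const (poly F c) h (w X) * M) <
            |psi X d (poly F c) h m M - const (poly F c) h (w X) * M|)) : ℝ) ≤ ε * #(adm X F h a Y)) ∧
    (∀ Lam : ℝ, ∃ X0 : ℕ, ∀ X : ℕ, X0 ≤ X → ∀ (f : Fin g → ℤ[X]) (h : Fin k → ℕ), 0 < const f h (w X) →
      ∀ m M : ℕ, ((m : ℝ) + 1) ^ (d - 1) ≤ X → Real.log X ^ (g * k + 1) ≤ M → Lam ≤ expected X d f h m M) ∧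
    (∃ c1 : ℝ, 0 < c1 ∧ ∃ X0 : ℕ, ∀ X : ℕ, X0 ≤ X → ∀ (F : Fin g → ℤ[X]) (h : Fin k → ℕ)
      (a : Fin g → Fin d → ℤ) (Y : Fin g → Fin d → ℕ),
        (∀ l j, (X : ℝ) / Real.log X ^ C ≤ Y l j) → c1 * #(box a Y) ≤ #(adm X F h a Y)) := by
  refine ⟨?_, ?_, ?_⟩
  · exact Run7.h385.PT.Fin4.main d g k C hd hg hk1 hk
  · exact Run7.h385.PT.Fin4.exp_large d g k
  · exact Run7.h385.PT.Fin3.main_adm d g k C hd (by omega)

end Pool.Agent.Results.MP_51e72e_nt.TuplesAlongRandomPolynomials
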